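import Pool.Agent.helper52.FS.SpecP

/-!
# MP_07c750 (quantum unique ergodicity), PROJECT FS: row RHO (the window)
-/

open MeasureTheory Set

set_option autoImplicit false

namespace Pool.Agent.FS

noncomputable section

/-- the integral over `[-1, 1]` against the tent -/
theorem RHO_half (f : ℝ → ℝ) (hf : Continuous f) :
    ∫ s in Icc (-1 : ℝ) 1, (1 - |s|) * f s = (∫ s in (0 : ℝ)..1, (1 - s) * f (-s)) + ∫ s in (0 : ℝ)..1, (1 - s) * f s := by
  have hc : Continuous fun s : ℝ => (1 - |s|) * f s := by fun_prop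
  rw [integral_Icc_eq_integral_Ioc, ← intervalIntegral.integral_of_le (by norm_num),
    ← intervalIntegral.integral_add_adjacent_intervals (b := 0) (hc.intervalIntegrable _ _) (hc.intervalIntegrable _ _)]
  congr 1
  · have h1 := intervalIntegral.integral_comp_neg (a := 0) (b := 1) (fun s : ℝ => (1 - |s|) * f s)
    rw [neg_zero] at h1
    rw [← h1]
    refine intervalIntegral.integral_congr fun s hs => ?_
    rw [uIcc_of_le zero_le_one] at hs
    simp only [abs_neg]
    rw [abs_of_nonneg hs.1]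
  · refine intervalIntegral.integral_congr fun s hs => ?_
    rw [uIcc_of_le zero_le_one] at hs
    rw [abs_of_nonneg hs.1]

theorem RHO_two (t : ℝ) : rho t = 2 * ∫ s in (0 : ℝ)..1, (1 - s) * Real.cos (s * t) := by
  unfold rho
  rw [RHO_half (fun s => Real.cos (s * t)) (by fun_prop)]
  simp only [neg_mul, Real.cos_neg]
  ring

theorem RHO_ev (t : ℝ) : rho (-t) = rho t := by
  unfold rho
  simp only [mul_neg, Real.cos_neg]

theorem RHO_one (t : ℝ) : rho t ≤ 1 := by
  rw [RHO_two]
  have h1 : ∫ s in (0 : ℝ)..1, (1 - s) * Real.cos (s * t) ≤ ∫ s in (0 : ℝ)..1, (1 - s) := by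
    refine intervalIntegral.integral_mono_on zero_le_one ((by fun_prop : Continuous _).intervalIntegrable _ _)
      ((by fun_prop : Continuous fun s : ℝ => 1 - s).intervalIntegrable _ _) fun s hs => ?_
    exact mul_le_of_le_one_right (by linarith [hs.2]) (Real.cos_le_one _)
  have h2 : ∫ s in (0 : ℝ)..1, (1 - s) = 1 / 2 := by
    rw [intervalIntegral.integral_eq_sub_of_hasDerivAt (f := fun s : ℝ => s - s ^ 2 / 2) (fun s _ => ?_) ((by fun_prop : Continuous fun s : ℝ => 1 - s).intervalIntegrable _ _)]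
    · norm_num
    · have h3 := (hasDerivAt_id s).sub (((hasDerivAt_id s).pow 2).div_const 2)
      refine h3.congr_deriv ?_
      simp
  linarith

theorem RHO_form (t : ℝ) (ht : t ≠ 0) : rho t = 2 * (1 - Real.cos t) / t ^ 2 := by
  rw [RHO_two]
  rw [intervalIntegral.integral_eq_sub_of_hasDerivAt (f := fun s : ℝ => (1 - s) * Real.sin (s * t) / t - Real.cos (s * t) / t ^ 2) (fun s _ => ?_)
    ((by fun_prop : Continuous fun s : ℝ => (1 - s) * Real.cos (s * t)).intervalIntegrable _ _)]
  · simp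
    field_simp
    ring
  · have h0 : HasDerivAt (fun s : ℝ => s * t) t s := by
      have := (hasDerivAt_id s).mul_const t
      rw [one_mul] at this
      exact this
    have h1 := ((((hasDerivAt_id s).const_sub 1).mul h0.sin).div_const t).sub (h0.cos.div_const (t ^ 2))
    refine h1.congr_deriv ?_
    simp only [id]
    field_simp
    ring

theorem RHO_nn (t : ℝ) : 0 ≤ rho t := by
  by_cases ht : t = 0
  · rw [ht, RHO_two]
    refine mul_nonneg (by norm_num) (intervalIntegral.integral_nonneg zero_le_one fun s hs => ?_)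
    rw [mul_zero, Real.cos_zero, mul_one]
    linarith [hs.2]
  · rw [RHO_form t ht]
    have := Real.cos_le_one t
    exact div_nonneg (by linarith) (by positivity)

theorem RHO_dc (t : ℝ) : rho t ≤ 5 / (1 + t ^ 2) := by
  rw [le_div_iff₀ (by positivity)]
  have h0 := RHO_nn t
  rcases le_or_gt (t ^ 2) 4 with h | h
  · have h1 := RHO_one t
    nlinarith
  · have ht : t ≠ 0 := by
      intro h1
      rw [h1] at h
      norm_num at h
    have h1 : rho t * t ^ 2 = 2 * (1 - Real.cos t) := by
      rw [RHO_form t ht]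
      field_simp
    have h2 := Real.neg_one_le_cos t
    nlinarith

theorem RHO_lo (t : ℝ) (ht : |t| ≤ 3) : 1 / 4 ≤ rho t := by
  rw [RHO_two]
  have h1 : ∫ s in (0 : ℝ)..1, (1 - s) * (1 - (s * t) ^ 2 / 2) ≤ ∫ s in (0 : ℝ)..1, (1 - s) * Real.cos (s * t) := by
    refine intervalIntegral.integral_mono_on zero_le_one ((by fun_prop : Continuous fun s : ℝ => (1 - s) * (1 - (s * t) ^ 2 / 2)).intervalIntegrable _ _)
      ((by fun_prop : Continuous fun s : ℝ => (1 - s) * Real.cos (s * t)).intervalIntegrable _ _) fun s hs => ?_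
    exact mul_le_mul_of_nonneg_left (Real.one_sub_sq_div_two_le_cos) (by linarith [hs.2])
  have h2 : ∫ s in (0 : ℝ)..1, (1 - s) * (1 - (s * t) ^ 2 / 2) = 1 / 2 - t ^ 2 / 24 := by
    rw [intervalIntegral.integral_eq_sub_of_hasDerivAt (f := fun s : ℝ => s - s ^ 2 / 2 - t ^ 2 / 2 * (s ^ 3 / 3 - s ^ 4 / 4)) (fun s _ => ?_)
      ((by fun_prop : Continuous fun s : ℝ => (1 - s) * (1 - (s * t) ^ 2 / 2)).intervalIntegrable _ _)]
    · norm_num
      ring
    · have h3 := ((hasDerivAt_id s).sub (((hasDerivAt_id s).pow 2).div_const 2)).sub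
        (((((hasDerivAt_id s).pow 3).div_const 3).sub (((hasDerivAt_id s).pow 4).div_const 4)).const_mul (t ^ 2 / 2))
      refine h3.congr_deriv ?_
      simp
      ring
  have h3 : t ^ 2 ≤ 9 := by
    have := sq_le_sq' (abs_le.1 ht).1 (abs_le.1 ht).2
    norm_num at this
    linarith
  linarith

theorem RHO_ct : Continuous rho := by
  have h := continuous_parametric_integral_of_continuous (μ := volume) (f := fun t s : ℝ => (1 - |s|) * Real.cos (s * t)) (by fun_prop) (isCompact_Icc (a := (-1 : ℝ)) (b := 1))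
  exact h

theorem RHO_maj : Integrable fun t : ℝ => 5 / (1 + t ^ 2) := by
  have h := integrable_inv_one_add_sq.const_mul 5
  exact h

theorem RHO_ig : Integrable rho := by
  refine RHO_maj.mono' RHO_ct.aestronglyMeasurable (Filter.Eventually.of_forall fun t => ?_)
  rw [Real.norm_eq_abs, abs_of_nonneg (RHO_nn t)]
  exact RHO_dc t

theorem RHO_im : ∫ t, rho t ≤ 16 := by
  have h1 : ∫ t, rho t ≤ ∫ t : ℝ, 5 / (1 + t ^ 2) := integral_mono RHO_ig RHO_maj fun t => RHO_dc t
  have h2 : ∫ t : ℝ, 5 / (1 + t ^ 2) = 5 * Real.pi := by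
    have h3 : ∀ t : ℝ, 5 / (1 + t ^ 2) = 5 * (1 + t ^ 2)⁻¹ := fun t => div_eq_mul_inv _ _
    simp only [h3]
    rw [integral_const_mul, integral_univ_inv_one_add_sq]
  have h3 := Real.pi_lt_d2
  linarith

theorem RHO_ce (t : ℝ) : (rho t : ℂ) = ∫ s in Icc (-1 : ℝ) 1, ((1 - |s| : ℝ) : ℂ) * ee (-(s * t)) := by
  have h1 : ∀ s : ℝ, ((1 - |s| : ℝ) : ℂ) * ee (-(s * t)) = (((1 - |s|) * Real.cos (s * t) : ℝ) : ℂ) - (((1 - |s|) * Real.sin (s * t) : ℝ) : ℂ) * Complex.I := by
    intro s
    have h2 : ee (-(s * t)) = (Real.cos (s * t) : ℂ) - (Real.sin (s * t) : ℂ) * Complex.I := by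
      unfold ee
      rw [Complex.exp_mul_I, ← Complex.ofReal_cos, ← Complex.ofReal_sin, Real.cos_neg, Real.sin_neg]
      push_cast
      ring
    rw [h2]
    push_cast
    ring
  have hi : ∀ f : ℝ → ℝ, Continuous f → IntegrableOn f (Icc (-1 : ℝ) 1) := fun f hf => hf.continuousOn.integrableOn_compact isCompact_Icc
  have h3 : ∫ s in Icc (-1 : ℝ) 1, (1 - |s|) * Real.sin (s * t) = 0 := by
    rw [RHO_half (fun s => Real.sin (s * t)) (by fun_prop)]
    simp only [neg_mul, Real.sin_neg, mul_neg, intervalIntegral.integral_neg]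
    ring
  simp only [h1]
  rw [integral_sub, integral_mul_const, integral_complex_ofReal, integral_complex_ofReal, h3]
  · unfold rho
    simp
  · exact (hi (fun s => (1 - |s|) * Real.cos (s * t)) (by fun_prop)).ofReal
  · exact (hi (fun s => (1 - |s|) * Real.sin (s * t)) (by fun_prop)).ofReal.mul_const _

/-- **Row RHO** -/
theorem RHO_proof : RHO_stmt where
  ct := RHO_ct
  ev := RHO_ev
  nn := RHO_nn
  le := RHO_one
  dc := RHO_dc
  lo := RHO_lo
  ig := RHO_ig
  im := RHO_im
  ce := RHO_ce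

end

end Pool.Agent.FS
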