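import Pool.Agent.helper87.FS.Spec

set_option autoImplicit false

namespace Pool.Agent.FS

open Polynomial Matrix Pool.Agent.helper42.NS

/-- the equations -/
noncomputable def CNB_L (K : Type) [Field K] (lam : K) (t k : ℕ) (H : Matrix (Fin t) (Fin t) ℤ) (B : Fin k → Fin t → Bool) :
    (Fin t → K) →ₗ[K] (Fin (t + k) → K) :=
  LinearMap.pi fun x => Fin.addCases (motive := fun _ => (Fin t → K) →ₗ[K] K)
    (fun j => lam • LinearMap.proj j - ∑ i, (H j i : K) • LinearMap.proj i)
    (fun i => - ∑ j, if B i j then LinearMap.proj j else 0) x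

theorem CNB_left (K : Type) [Field K] (lam : K) (t k : ℕ) (H : Matrix (Fin t) (Fin t) ℤ) (B : Fin k → Fin t → Bool)
    (v : Fin t → K) (j : Fin t) :
    CNB_L K lam t k H B v (Fin.castAdd k j) = lam * v j - ∑ i, (H j i : K) * v i := by
  unfold CNB_L
  rw [LinearMap.pi_apply, Fin.addCases_left]
  simp only [LinearMap.sub_apply, LinearMap.smul_apply, LinearMap.proj_apply, LinearMap.sum_apply, smul_eq_mul]

theorem CNB_right (K : Type) [Field K] (lam : K) (t k : ℕ) (H : Matrix (Fin t) (Fin t) ℤ) (B : Fin k → Fin t → Bool)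
    (v : Fin t → K) (i : Fin k) :
    CNB_L K lam t k H B v (Fin.natAdd t i) = - dotb (B i) v := by
  unfold CNB_L
  rw [LinearMap.pi_apply, Fin.addCases_right, LinearMap.neg_apply, LinearMap.sum_apply]
  unfold dotb
  congr 1
  refine Finset.sum_congr rfl fun j _ => ?_
  split_ifs
  · rfl
  · rfl

theorem CNB (h1 : OD2_stmt) : CNB_stmt := by
  intro K _ lam t k H B
  have hker : LinearMap.ker (CNB_L K lam t k H B) = EM K lam H B := by
    ext v
    rw [LinearMap.mem_ker, mem_EM, mem_EigK]
    constructor
    · intro h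
      refine ⟨fun j => ?_, fun i => ?_⟩
      · have h2 := congrFun h (Fin.castAdd k j)
        rw [CNB_left] at h2
        have h3 : lam * v j - ∑ i, (H j i : K) * v i = 0 := h2
        exact (sub_eq_zero.1 h3).symm
      · have h2 := congrFun h (Fin.natAdd t i)
        rw [CNB_right] at h2
        have h3 : - dotb (B i) v = 0 := h2
        exact neg_eq_zero.1 h3
    · rintro ⟨h2, h3⟩
      funext x
      refine Fin.addCases (fun j => ?_) (fun i => ?_) x
      · rw [CNB_left, h2 j]
        exact sub_self _
      · rw [CNB_right, h3 i]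
        exact neg_zero
  have hrank : Module.finrank K (LinearMap.range (CNB_L K lam t k H B)) + Module.finrank K (EM K lam H B) = t := by
    have h2 := LinearMap.finrank_range_add_finrank_ker (CNB_L K lam t k H B)
    rw [hker, Module.finrank_fin_fun] at h2
    exact h2
  have hle : Set.ncard {bz : (Fin t → Bool) × (Fin k → Bool) | Bth K lam H B bz.1 bz.2} ≤
      Set.ncard {c : Fin (t + k) → Bool | (fun i => if c i then (1 : K) else 0) ∈ LinearMap.range (CNB_L K lam t k H B)} := by
    refine Set.ncard_le_ncard_of_injOn (fun bz : (Fin t → Bool) × (Fin k → Bool) => Fin.append bz.1 bz.2) ?_ ?_ (Set.toFinite _)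
    · rintro ⟨b, z⟩ ⟨v, hv1, hv2⟩
      show (fun i => if Fin.append b z i then (1 : K) else 0) ∈ LinearMap.range (CNB_L K lam t k H B)
      refine ⟨v, ?_⟩
      funext x
      refine Fin.addCases (fun j => ?_) (fun i => ?_) x
      · rw [CNB_left, Fin.append_left, ← hv1 j, add_sub_cancel_left]
      · rw [CNB_right, Fin.append_right]
        have h3 : dotb (B i) v + (if z i then 1 else 0) = 0 := hv2 i
        exact neg_eq_of_add_eq_zero_right h3
    · rintro ⟨b, z⟩ _ ⟨b', z'⟩ _ h
      have h2 : Fin.append b z = Fin.append b' z' := h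
      have e1 : b = b' := by
        funext j
        have h3 := congrFun h2 (Fin.castAdd k j)
        rwa [Fin.append_left, Fin.append_left] at h3
      have e2 : z = z' := by
        funext i
        have h3 := congrFun h2 (Fin.natAdd t i)
        rwa [Fin.append_right, Fin.append_right] at h3
      rw [e1, e2]
  have h2 := hle.trans (h1 K (t + k) (LinearMap.range (CNB_L K lam t k H B)))
  calc Set.ncard {bz : (Fin t → Bool) × (Fin k → Bool) | Bth K lam H B bz.1 bz.2} * 2 ^ (k + Module.finrank K (EM K lam H B))
      ≤ 2 ^ Module.finrank K (LinearMap.range (CNB_L K lam t k H B)) * 2 ^ (k + Module.finrank K (EM K lam H B)) :=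
        Nat.mul_le_mul_right _ h2
    _ = 2 ^ (t + k) := by
        rw [← pow_add]
        congr 1
        omega

end Pool.Agent.FS
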